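import Pool.Agent.X245.GEN.Abs
import Pool.Agent.X246.ACR.Sse

/-!
# Which languages reduce to small-set expansion in restricted models?

The question asks for polynomial-time reductions of all languages in `NP` to `SSE(η, δ)`. Here it is
proved, unconditionally and for every language `f` (a set of strings of `N` bits), what restricted
reductions can do. A reduction maps an input `x` (and a random choice `ω`) to a regular graph with the
vertex set `V`, given by lists of neighbours: the entry `j < D` of the list of `u` is a neighbour of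
`u` or empty. Let `c = (1 - ε - η) κ k / |V|`, where `k` is the size of the sets (so `δ = k / |V|`) and
`κ D` is a lower bound for the degree.

1. Bounded fan-in: if every entry is determined by at most `t` bits of the input (which may depend
   on the input) then `f` has a decision tree of depth at most `⌊2 t / (c (1 - 2 θ))⌋ ^ 3`, where `θ` is
   the probability of an error. So only languages in (nonuniform) `NC⁰` reduce by `NC⁰` reductions.
2. Conversely, every language with a decision tree of depth `t` reduces in this way.
3. Negations: if every entry is encoded by `b` bits, each computed by a circuit of any size with `t`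
   NOT gates, then the answer changes at most `2 b (2 ^ (t + 1) - 1) / (c (1 - 2 θ))` times along any
   increasing chain of inputs.
4. Conversely, if it changes at most `2 ^ (t + 1) - 1` times along every chain then there is such a
   reduction with `b = 1` (Markov's theorem for reductions to small-set expansion).
5. Average sensitivity: if every entry is a function of `s` functions of average sensitivity at most
   `a`, then the average sensitivity of `f` is at most `2 s a / c + 2 θ N`, where `θ` is the fraction
   of the inputs for which the reduction is not correct.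

The comparison of a yes and a no instance is that of `Pool/Agent/X246/ACR/Sse.lean`; the decision tree
is that of Nisan and of Beals, Buhrman, Cleve, Mosca and de Wolf.
-/

set_option autoImplicit false

namespace Pool.Agent.Results.MP_8d8c46_lc.ArbitraryLanguages

open Finset Pool.Agent.X246.ACR Pool.Agent.X245.GEN Pool.Agent.Y601

open scoped Classical

/-- The value of `g` at `x` is determined by at most `t` bits of `x`. -/
def LocalAt {N : ℕ} {α : Type} (t : ℕ) (g : (Fin N → Bool) → α) (x : Fin N → Bool) : Prop :=
  ∃ A : Finset (Fin N), A.card ≤ t ∧ ∀ y, (∀ i ∈ A, y i = x i) → g y = g x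

/-- Decision trees. -/
inductive Tree (N : ℕ) : Type
  | leaf (c : Bool) : Tree N
  | query (i : Fin N) (a b : Tree N) : Tree N

/-- The answer of the tree: it continues with `b` if the bit `i` is 1, and with `a` otherwise. -/
def Tree.eval {N : ℕ} : Tree N → (Fin N → Bool) → Bool
  | .leaf c, _ => c
  | .query i a b, x => if x i = true then b.eval x else a.eval x

/-- The depth of the tree. -/
def Tree.depth {N : ℕ} : Tree N → ℕ
  | .leaf _ => 0
  | .query _ a b => max a.depth b.depth + 1

/-- the translation of the trees of the library -/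
def conv {N : ℕ} : Pool.Agent.TH163.AC3.Tree (Fin N) → Tree N
  | .leaf c => .leaf c
  | .node i a b => .query i (conv a) (conv b)

theorem conv_eval {N : ℕ} (t : Pool.Agent.TH163.AC3.Tree (Fin N)) (x : Fin N → Bool) :
    (conv t).eval x = t.eval x := by
  induction t with
  | leaf c => rfl
  | node i a b iha ihb =>
    unfold conv Tree.eval Pool.Agent.TH163.AC3.Tree.eval
    rw [iha, ihb]

theorem conv_depth {N : ℕ} (t : Pool.Agent.TH163.AC3.Tree (Fin N)) :
    (conv t).depth = t.depth := by
  induction t with
  | leaf c => rfl
  | node i a b iha ihb =>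
    unfold conv Tree.depth Pool.Agent.TH163.AC3.Tree.depth
    rw [iha, ihb]

theorem tree_local {N : ℕ} (T : Tree N) (x : Fin N → Bool) : LocalAt T.depth T.eval x := by
  induction T with
  | leaf c => exact ⟨∅, by simp, fun y _ => rfl⟩
  | query i a b iha ihb =>
    obtain ⟨A, hA, hA2⟩ := iha
    obtain ⟨B, hB, hB2⟩ := ihb
    by_cases hx : x i = true
    · refine ⟨insert i B, ?_, fun y hy => ?_⟩
      · refine (card_insert_le _ _).trans ?_
        unfold Tree.depth
        have := le_max_right a.depth b.depth
        omega
      · have h1 := hy i (mem_insert_self _ _)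
        unfold Tree.eval
        rw [h1, if_pos hx, if_pos hx]
        exact hB2 y fun j hj => hy j (mem_insert_of_mem hj)
    · refine ⟨insert i A, ?_, fun y hy => ?_⟩
      · refine (card_insert_le _ _).trans ?_
        unfold Tree.depth
        have := le_max_left a.depth b.depth
        omega
      · have h1 := hy i (mem_insert_self _ _)
        unfold Tree.eval
        rw [h1, if_neg hx, if_neg hx]
        exact hA2 y fun j hj => hy j (mem_insert_of_mem hj)

/-! ### The two graphs for the upper bounds -/

section graph

variable {q k : ℕ}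

/-- disjoint cliques (`p = true`) or the complete graph -/
def graph (q k : ℕ) (p : Bool) : SimpleGraph (Fin q × Fin k) where
  Adj u v := u ≠ v ∧ (p = true → u.1 = v.1)
  symm := ⟨fun _ _ h => ⟨h.1.symm, fun hp => (h.2 hp).symm⟩⟩
  loopless := ⟨fun _ h => h.1 rfl⟩

/-- the lists of neighbours -/
noncomputable def lists (q k : ℕ) (p : Bool) (u : Fin q × Fin k) (j : Fin (q * k)) :
    Option (Fin q × Fin k) :=
  if (graph q k p).Adj u (finProdFinEquiv.symm j) then some (finProdFinEquiv.symm j) else none

theorem lists_ok (p : Bool) : NbLists (graph q k p) (lists q k p) := by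
  refine ⟨fun u v => ⟨fun h => ⟨finProdFinEquiv v, ?_⟩, ?_⟩, ?_⟩
  · unfold lists
    rw [Equiv.symm_apply_apply, if_pos h]
  · rintro ⟨j, hj⟩
    unfold lists at hj
    split_ifs at hj with h
    rw [Option.some_inj] at hj
    rw [← hj]
    exact h
  · intro u j j' v hj hj'
    unfold lists at hj hj'
    split_ifs at hj hj' with h h'
    rw [Option.some_inj] at hj hj'
    exact finProdFinEquiv.symm.injective (hj.trans hj'.symm)

theorem deg_clique (v : Fin q × Fin k) :
    (univ.filter fun w => (graph q k true).Adj v w).card = k - 1 := by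
  have h1 : (univ.filter fun w => (graph q k true).Adj v w) =
      (univ.erase v.2).image fun j => (v.1, j) := by
    ext w
    simp only [mem_filter, mem_univ, true_and, mem_image, mem_erase, ne_eq, and_true]
    constructor
    · rintro ⟨h1, h2⟩
      have h3 := h2 rfl
      refine ⟨w.2, fun h => h1 (Prod.ext h3 h.symm), Prod.ext h3 rfl⟩
    · rintro ⟨j, hj, rfl⟩
      exact ⟨fun h => hj (congrArg Prod.snd h).symm, fun _ => rfl⟩
  rw [h1, card_image_of_injective _ fun a b h => (Prod.mk.inj h).2, card_erase_of_mem (mem_univ _),
    card_univ, Fintype.card_fin]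

theorem deg_complete (v : Fin q × Fin k) :
    (univ.filter fun w => (graph q k false).Adj v w).card = q * k - 1 := by
  have h1 : (univ.filter fun w => (graph q k false).Adj v w) = univ.erase v := by
    ext w
    simp only [mem_filter, mem_univ, true_and, mem_erase, ne_eq, and_true]
    constructor
    · rintro ⟨h1, -⟩
      exact fun h => h1 h.symm
    · intro h
      exact ⟨fun h' => h h'.symm, fun h' => absurd h' (by decide)⟩
  rw [h1, card_erase_of_mem (mem_univ _), card_univ, Fintype.card_prod, Fintype.card_fin,
    Fintype.card_fin]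

theorem cut_clique (hq : 1 ≤ q) : ∃ S : Finset (Fin q × Fin k), S.card = k ∧
    SSE.cut (graph q k true) S = 0 := by
  refine ⟨univ.image fun j => ((⟨0, hq⟩ : Fin q), j), ?_, ?_⟩
  · rw [card_image_of_injective _ fun a b h => (Prod.mk.inj h).2, card_univ, Fintype.card_fin]
  · unfold SSE.cut
    rw [card_eq_zero]
    refine eq_empty_of_forall_notMem fun p hp => ?_
    obtain ⟨u, v⟩ := p
    simp only [mem_filter, mem_univ, true_and] at hp
    obtain ⟨h1, h2, -, h3⟩ := hp
    rw [mem_image] at h1
    obtain ⟨j, -, rfl⟩ := h1
    apply h2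
    rw [mem_image]
    exact ⟨v.2, mem_univ _, Prod.ext (h3 rfl) rfl⟩

theorem cut_complete (S : Finset (Fin q × Fin k)) :
    SSE.cut (graph q k false) S = S.card * (q * k - S.card) := by
  unfold SSE.cut
  trans (S ×ˢ Sᶜ).card
  · congr 1
    ext ⟨u, v⟩
    simp only [mem_filter, mem_univ, true_and, mem_product, mem_compl]
    constructor
    · rintro ⟨h1, h2, -⟩
      exact ⟨h1, h2⟩
    · rintro ⟨h1, h2⟩
      exact ⟨h1, h2, fun h => h2 (h ▸ h1), fun h => absurd h (by decide)⟩
  · rw [card_product, card_compl, Fintype.card_prod, Fintype.card_fin, Fintype.card_fin]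

theorem graph_right (hq : 1 ≤ q) (hk : 2 ≤ k) (p : Bool) :
    SseRight 0 (1 / q) ((k - 1) / (q * k)) k (p = false) (graph q k p) (lists q k p) := by
  have hq0 : (0 : ℝ) < q := by exact_mod_cast hq
  have hk0 : (2 : ℝ) ≤ k := by exact_mod_cast hk
  have hqk : k ≤ q * k := Nat.le_mul_of_pos_left k hq
  have hD : ((k : ℝ) - 1) / (q * k) * ((q * k : ℕ) : ℝ) = k - 1 := by
    push_cast
    field_simp
  cases p with
  | true =>
    refine ⟨lists_ok _, k - 1, by omega, ?_, deg_clique, ?_, fun h => absurd h (by decide)⟩
    · rw [hD, Nat.cast_sub (by omega)]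
      push_cast
      exact le_rfl
    · intro _
      obtain ⟨S, h1, h2⟩ := cut_clique (q := q) (k := k) hq
      refine ⟨S, h1, ?_⟩
      rw [h2]
      simp
  | false =>
    refine ⟨lists_ok _, q * k - 1, by omega, ?_, deg_complete, fun h => absurd rfl h, ?_⟩
    · rw [hD, Nat.cast_sub (by omega)]
      push_cast
      have : (k : ℝ) ≤ q * k := by exact_mod_cast hqk
      linarith
    · intro _ S hS
      rw [cut_complete, hS, Nat.cast_mul, Nat.cast_sub hqk, Nat.cast_sub (by omega)]
      push_cast
      have h1 : (1 - 1 / (q : ℝ)) * ((q * k - 1) * k) = k * (q * k - k) - (1 - 1 / q) * k := by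
        field_simp
      rw [h1]
      have h2 : (0 : ℝ) ≤ (1 - 1 / q) * k := by
        refine mul_nonneg ?_ (by linarith)
        rw [sub_nonneg, div_le_one hq0]
        exact_mod_cast hq
      linarith

end graph

/-- right instances for different answers differ in many entries -/
theorem pair_right {V : Type} [Fintype V] {D k : ℕ} {ε η κ : ℝ} (hε : 0 ≤ ε) (hη : 0 ≤ η)
    (hεη : ε + η < 1) (hk : 1 ≤ k) (hkV : k ≤ Fintype.card V) {p q : Bool} (hpq : p ≠ q)
    {G H : SimpleGraph V} {a b : V → Fin D → Option V}
    (hG : SseRight ε η κ k (p = false) G a) (hH : SseRight ε η κ k (q = false) H b) :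
    (1 - ε - η) * κ * (k / Fintype.card V) / 2 * Fintype.card (V × Fin D) ≤
      ((univ.filter fun r : V × Fin D => b r.1 r.2 ≠ a r.1 r.2).card : ℝ) := by
  have h1 : (q = false) ↔ ¬ (p = false) := by
    revert hpq
    cases p <;> cases q <;> simp
  have h2 := sse_pair hε hη hεη hkV h1 hG hH
  have hV : (0 : ℝ) < Fintype.card V := by
    have : 0 < Fintype.card V := by omega
    exact_mod_cast this
  refine le_trans (le_of_eq ?_) h2
  rw [Fintype.card_prod, Fintype.card_fin]
  push_cast
  field_simp

/-- Let `f` be any language, and let the instances be regular graphs on `V` (given by lists of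
neighbours with `D` entries; the degree is at least `κ D`) in which some set of `k` vertices has
expansion at most `ε` (for members of `f`) or all sets of `k` vertices have expansion at least `1 - η`
(for the other inputs).

(1) Suppose that for each input this is right with probability at least `1 - θ`. If each entry is
determined by at most `t` bits of the input, and `2 t < (1 - ε - η) κ (k / |V|) (1 - 2 θ) (l + 1)`, then
`f` has a decision tree of depth at most `l ^ 3`.

(2) Conversely, if `f` has a decision tree of depth at most `t` then for all `q ≥ 1`, `k ≥ 2` there is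
such a map to graphs with `q k` vertices, with no error, `ε = 0`, `η = 1 / q`, `κ = (k - 1) / (q k)`.

(3) Let `z 0 ≤ ... ≤ z m` be inputs for which the instance is right with probability at least `1 - θ`,
and let every entry be encoded by `b` bits which are computed by circuits with `t` NOT gates. Then the
answer changes at most `2 b (2 ^ (t + 1) - 1) / ((1 - ε - η) κ (k / |V|) (1 - 2 θ))` times along the
chain.

(4) Conversely, if the answer changes at most `2 ^ (t + 1) - 1` times along every chain then there is
such a reduction with `b = 1` and the parameters of (2).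

(5) If every entry is a function of `s` functions of average sensitivity at most `a`, and the instances
are right for at least a fraction `1 - θ` of the inputs, then
`(1 - ε - η) κ (k / |V|) (avgSens f - 2 θ N) ≤ 2 s a`. -/
theorem result :
    (∀ (N t D k l : ℕ) (Ω V : Type) [Fintype Ω] [Nonempty Ω] [Fintype V] (ε η κ θ : ℝ)
      (f : (Fin N → Bool) → Bool) (G : Ω → (Fin N → Bool) → SimpleGraph V)
      (nb : Ω → (Fin N → Bool) → V → Fin D → Option V),
      0 ≤ ε → 0 ≤ η → ε + η < 1 → 0 < κ → θ < 1 / 2 → 1 ≤ k → k ≤ Fintype.card V →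
      (∀ ω u j x, LocalAt t (fun x => nb ω x u j) x) →
      (∀ x, (1 - θ) * Fintype.card Ω ≤ ((univ.filter fun ω =>
        SseRight ε η κ k (f x = false) (G ω x) (nb ω x)).card : ℝ)) →
      2 * t < (1 - ε - η) * κ * (k / Fintype.card V) * (1 - 2 * θ) * (l + 1) →
      ∃ T : Tree N, T.depth ≤ l ^ 3 ∧ ∀ x, T.eval x = f x) ∧
    (∀ (N t q k : ℕ) (f : (Fin N → Bool) → Bool), 1 ≤ q → 2 ≤ k →
      (∃ T : Tree N, T.depth ≤ t ∧ ∀ x, T.eval x = f x) →
      ∃ (G : (Fin N → Bool) → SimpleGraph (Fin q × Fin k))
        (nb : (Fin N → Bool) → Fin q × Fin k → Fin (q * k) → Option (Fin q × Fin k)),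
        (∀ u j x, LocalAt t (fun x => nb x u j) x) ∧
        ∀ x, SseRight 0 (1 / q) ((k - 1) / (q * k)) k (f x = false) (G x) (nb x)) ∧
    (∀ (N b t D k m : ℕ) (Ω V : Type) [Fintype Ω] [Nonempty Ω] [Fintype V] (ε η κ θ : ℝ)
      (f : (Fin N → Bool) → Bool) (G : Ω → (Fin N → Bool) → SimpleGraph V)
      (F : Ω → V → Fin D → Fin b → (Fin N → Bool) → Bool)
      (dec : Ω → V → Fin D → (Fin b → Bool) → Option V) (z : ℕ → Fin N → Bool),
      (∀ ω u j i, NegComp t (F ω u j i)) →
      0 ≤ ε → 0 ≤ η → ε + η < 1 → 0 ≤ κ → θ < 1 → 1 ≤ k → k ≤ Fintype.card V → Monotone z →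
      (∀ j ≤ m, (1 - θ) * Fintype.card Ω ≤ ((univ.filter fun ω =>
        SseRight ε η κ k (f (z j) = false) (G ω (z j))
          (fun u i => dec ω u i fun l => F ω u i l (z j))).card : ℝ)) →
      (1 - ε - η) * κ * (k / Fintype.card V) * (1 - 2 * θ) * changes f z m ≤
        2 * b * (2 ^ (t + 1) - 1)) ∧
    (∀ (N t q k : ℕ) (f : (Fin N → Bool) → Bool), 1 ≤ q → 2 ≤ k →
      (∀ z : ℕ → Fin N → Bool, Monotone z → ∀ m, changes f z m ≤ 2 ^ (t + 1) - 1) →
      ∃ (G : (Fin N → Bool) → SimpleGraph (Fin q × Fin k))
        (F : Fin q × Fin k → Fin (q * k) → Fin 1 → (Fin N → Bool) → Bool)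
        (dec : Fin q × Fin k → Fin (q * k) → (Fin 1 → Bool) → Option (Fin q × Fin k)),
        (∀ u j i, NegComp t (F u j i)) ∧
        ∀ x, SseRight 0 (1 / q) ((k - 1) / (q * k)) k (f x = false) (G x)
          (fun u i => dec u i fun l => F u i l x)) ∧
    (∀ (N s D k : ℕ) (V : Type) [Fintype V] (ε η κ θ a : ℝ)
      (f : (Fin N → Bool) → Bool) (G : (Fin N → Bool) → SimpleGraph V)
      (F : V → Fin D → Fin s → (Fin N → Bool) → Bool)
      (dec : V → Fin D → (Fin s → Bool) → Option V),
      (∀ u j i, avgSens (F u j i) ≤ a) →
      0 ≤ ε → 0 ≤ η → ε + η < 1 → 0 ≤ κ → θ < 1 → 1 ≤ k → k ≤ Fintype.card V →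
      (1 - θ) * 2 ^ N ≤ ((univ.filter fun x =>
        SseRight ε η κ k (f x = false) (G x) (fun u i => dec u i fun l => F u i l x)).card : ℝ) →
      (1 - ε - η) * κ * (k / Fintype.card V) * (avgSens f - 2 * θ * N) ≤ 2 * s * a) := by
  have hex : ∀ {Ω : Type} [Fintype Ω] [Nonempty Ω] (θ : ℝ) (A : Ω → Prop), θ < 1 →
      (1 - θ) * Fintype.card Ω ≤ ((univ.filter fun ω => A ω).card : ℝ) → ∃ ω, A ω := by
    intro Ω _ _ θ A hθ h
    by_contra hcon
    push Not at hcon
    rw [filter_false_of_mem fun x _ => hcon x, card_empty, Nat.cast_zero] at h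
    have h1 : (0 : ℝ) < Fintype.card Ω := by exact_mod_cast Fintype.card_pos
    have : 0 < (1 - θ) * Fintype.card Ω := mul_pos (by linarith) h1
    linarith
  refine ⟨?_, ?_, ?_, ?_, ?_⟩
  · intro N t D k l Ω V _ _ _ ε η κ θ f G nb hε hη hεη hκ hθ hk hkV hY hA hl
    have hV : 0 < Fintype.card V := by omega
    have hV' : (0 : ℝ) < Fintype.card V := by exact_mod_cast hV
    have hk' : (0 : ℝ) < k := by exact_mod_cast hk
    have hg : 0 < 1 - ε - η := by linarith
    obtain ⟨ω, hω⟩ := hex θ _ (by linarith) (hA fun _ => false)
    have hD := hω.pos hV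
    have hR : 0 < Fintype.card (V × Fin D) := by
      rw [Fintype.card_prod, Fintype.card_fin]
      positivity
    have hbs : ∀ x, BsLe l f x := by
      intro x m B hB hs
      have h1 := bs_abs (R := V × Fin D) (c := (1 - ε - η) * κ * (k / Fintype.card V) / 2)
        (η := θ) (by positivity) hR t f (fun ω x r => nb ω x r.1 r.2)
        (fun ω x => SseRight ε η κ k (f x = false) (G ω x) (nb ω x))
        (fun ω x y hx hy hxy => by
          have := pair_right hε hη hεη hk hkV hxy hx hy
          convert this)
        (fun ω r x => hY ω r.1 r.2 x) (fun x => by convert hA x) x m B hB hs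
      by_contra hcon
      have h2 : (l : ℝ) + 1 ≤ m := by
        have : l + 1 ≤ m := by omega
        exact_mod_cast this
      have h3 : 0 < (1 - ε - η) * κ * (k / Fintype.card V) * (1 - 2 * θ) :=
        mul_pos (by positivity) (by linarith)
      have h4 := mul_le_mul_of_nonneg_left h2 h3.le
      linarith
    obtain ⟨T, hT, hT2⟩ := hasDT_cube hbs
    exact ⟨conv T, by rw [conv_depth]; exact hT, fun x => by rw [conv_eval]; exact hT2 x⟩
  · rintro N t q k f hq hk ⟨T, hT, hT2⟩
    refine ⟨fun x => graph q k (f x), fun x => lists q k (f x), fun u j x => ?_,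
      fun x => graph_right hq hk (f x)⟩
    obtain ⟨A, hA, hA2⟩ := tree_local T x
    refine ⟨A, hA.trans hT, fun y hy => ?_⟩
    show lists q k (f y) u j = lists q k (f x) u j
    rw [← hT2, ← hT2, hA2 y hy]
  · intro N b t D k m Ω V _ _ _ ε η κ θ f G F dec z hF hε hη hεη hκ hθ hk hkV hz hA
    have hV : 0 < Fintype.card V := by omega
    have hg : 0 < 1 - ε - η := by linarith
    obtain ⟨ω, hω⟩ := hex θ _ hθ (hA 0 (Nat.zero_le _))
    have hD := hω.pos hV
    have hR : 0 < Fintype.card (V × Fin D) := by
      rw [Fintype.card_prod, Fintype.card_fin]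
      positivity
    have h1 := chain_abs (R := V × Fin D) (c := (1 - ε - η) * κ * (k / Fintype.card V) / 2)
      (η := θ) (by positivity) hR (fun ω r => F ω r.1 r.2) (fun ω r j => hF ω r.1 r.2 j)
      (fun ω r => dec ω r.1 r.2) f z hz m
      (fun ω x => SseRight ε η κ k (f x = false) (G ω x)
        (fun u i => dec ω u i fun l => F ω u i l x))
      (fun ω x y hx hy hxy => by
        have := pair_right hε hη hεη hk hkV hxy hx hy
        convert this)
      (fun j hj => by convert hA j hj)
    linarith
  · intro N t q k f hq hk hf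
    obtain ⟨c, hc⟩ : ∃ c : Bool, c = f fun _ => false := ⟨_, rfl⟩
    refine ⟨fun x => graph q k (f x), fun _ _ _ x => xor (f x) c,
      fun u i w => lists q k (xor (w 0) c) u i, fun _ _ _ => ?_, fun x => ?_⟩
    · rw [hc]
      exact markov t f hf
    · have h1 : xor (xor (f x) c) c = f x := by
        cases f x <;> cases c <;> rfl
      show SseRight 0 (1 / q) ((k - 1) / (q * k)) k (f x = false) (graph q k (f x))
        (fun u i => lists q k (xor (xor (f x) c) c) u i)
      rw [h1]
      exact graph_right hq hk (f x)
  · intro N s D k V _ ε η κ θ a f G F dec hF hε hη hεη hκ hθ hk hkV hA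
    have hV : 0 < Fintype.card V := by omega
    have hg : 0 < 1 - ε - η := by linarith
    obtain ⟨x, hx⟩ := hex (Ω := Fin N → Bool) θ _ hθ (by
      rw [Fintype.card_fun, Fintype.card_bool, Fintype.card_fin]
      push_cast
      exact hA)
    have hD := hx.pos hV
    have hR : 0 < Fintype.card (V × Fin D) := by
      rw [Fintype.card_prod, Fintype.card_fin]
      positivity
    have h1 := mean_abs (R := V × Fin D) (c := (1 - ε - η) * κ * (k / Fintype.card V) / 2)
      (η := θ) (a := a) (by positivity) hR (fun r => F r.1 r.2) (fun r j => hF r.1 r.2 j)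
      (fun r => dec r.1 r.2) f
      (fun x => SseRight ε η κ k (f x = false) (G x)
        (fun u i => dec u i fun l => F u i l x))
      (fun x y hx hy hxy => by
        have := pair_right hε hη hεη hk hkV hxy hx hy
        convert this)
      (by convert hA)
    linarith

end Pool.Agent.Results.MP_8d8c46_lc.ArbitraryLanguages
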