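import Pool.Agent.X246.ACR.Sse

/-!
# Small-set expansion is not hard under reductions of low average sensitivity

The conjecture asks for polynomial-time reductions. Here a reduction maps an input `x` with `N` bits to
a regular graph `G x` with the vertex set `V`, given by lists of neighbours: the entry `j < D` of the
list of `u` is a neighbour of `u` or empty. Every entry is an arbitrary function of `s` Boolean
functions of `x` (for example `s = O(log N)` bits which encode the entry). It is proved that if such a
reduction shows that `SSE(η, δ)` is hard for `NP`, or only for parity, then `s` times the maximal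
average sensitivity of these functions is at least `c N`, also if the reduction is correct only for
slightly more than half of the inputs. This excludes reductions with

* `o(√N)` unate functions (for example halfspaces with arbitrary weights) for each entry,
* `N ^ o(1)` polynomial threshold functions of bounded degree for each entry,
* bits that are computed by circuits of any size with less than `½ log₂ N - log₂ s - O(1)` NOT gates,
  or `log₂ N - log₂ s - O(1)` NOT gates if the reduction is correct for all inputs,
* bits that are computed by De Morgan formulas of size `o(N² / s²)`.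

The starting result `ConstantDepthReductions` treats circuits of constant depth, in the worst case;
its comparison of a yes and a no instance (`Pool/Agent/Y601/SSE/Ac0.lean`) is used.

Definitions used in the statement: `cut` (`Pool/Agent/Y601/SSE/Defs.lean`), `NbLists`, `SseRight`
(`Pool/Agent/X246/ACR/Sse.lean`), `Unate` (`Mono.lean`), `NegComp` (`NegMain.lean`), `DeMorgan`
(`Form.lean`), `stair` (`NegMain.lean`).
-/

set_option autoImplicit false

namespace Pool.Agent.Results.MP_8d8c46_lc.LowSensitivityReductions

open Finset Pool.Agent.X246.ACR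

open scoped Classical

/-- The average sensitivity. -/
noncomputable def avgSens {N : ℕ} (f : (Fin N → Bool) → Bool) : ℝ :=
  (∑ x : Fin N → Bool,
    ((univ.filter fun i => f (Function.update x i (!x i)) ≠ f x).card : ℝ)) / 2 ^ N

/-- `f` is a polynomial threshold function of degree at most `k`. -/
def IsPTF {N : ℕ} (k : ℕ) (f : (Fin N → Bool) → Bool) : Prop :=
  ∃ P : MvPolynomial (Fin N) ℝ, P.totalDegree ≤ k ∧
    ∀ x, f x = true ↔ 0 ≤ MvPolynomial.eval (fun i => if x i = true then (1 : ℝ) else 0) P

/-- The number of ones of `x` is odd. -/
def IsOdd {N : ℕ} (x : Fin N → Bool) : Prop := Odd (univ.filter fun i => x i = true).card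

/-- (1) Suppose that every entry of the lists of neighbours is a function of `s` functions of average
sensitivity at most `a`, and that for at least a fraction `1 / 2 + γ` of the inputs `x` the lists
are those of a `d`-regular graph, `d ≥ max(1, κ D)`, in which some set of `k` vertices has expansion at
most `ε` (if `x` is even) or all sets of `k` vertices have expansion at least `1 - η` (if `x` is odd).
Then `s a ≥ (1 - ε - η) κ γ (k / |V|) N`.

(2) - (5) The average sensitivity is at most `√N` for unate functions, `2 N ^ (1 - 1 / 2 ^ k)` for
polynomial threshold functions of degree at most `k`, `(2 ^ (t + 1) - 1) √N` for functions computed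
with `t` NOT gates and monotone gates, and `√S` for functions computed by De Morgan formulas with `S`
literals.

(6) If in (1) the entries are functions of `b` functions computed with `t` NOT gates and the lists are
right for the `N + 1` inputs `1 ^ j 0 ^ (N - j)` then
`(1 - ε - η) κ (k / |V|) N ≤ 2 b (2 ^ (t + 1) - 1)`. -/
theorem result :
    (∀ (N D k s : ℕ) (V : Type) [Fintype V] (ε η κ γ a : ℝ) (G : (Fin N → Bool) → SimpleGraph V)
      (f : V → Fin D → Fin s → (Fin N → Bool) → Bool)
      (dec : V → Fin D → (Fin s → Bool) → Option V),
      (∀ u j i, avgSens (f u j i) ≤ a) → 0 ≤ ε → 0 ≤ η → ε + η < 1 → 0 ≤ κ → 0 < γ → 1 ≤ k →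
      k ≤ Fintype.card V →
      (1 / 2 + γ) * 2 ^ N ≤ ((univ.filter fun x : Fin N → Bool =>
        SseRight ε η κ k (IsOdd x) (G x) (fun u j => dec u j fun i => f u j i x)).card : ℝ) →
      (1 - ε - η) * κ * γ * (k / Fintype.card V) * N ≤ s * a) ∧
    (∀ (N : ℕ) (f : (Fin N → Bool) → Bool), Unate f → avgSens f ≤ √N) ∧
    (∀ (N k : ℕ) (f : (Fin N → Bool) → Bool), 1 ≤ N → IsPTF k f →
      avgSens f ≤ 2 * (N : ℝ) ^ (1 - 1 / 2 ^ k : ℝ)) ∧
    (∀ (N t : ℕ) (f : (Fin N → Bool) → Bool), NegComp t f →
      avgSens f ≤ (2 ^ (t + 1) - 1) * √N) ∧
    (∀ (N : ℕ) (F : DeMorgan (Fin N)), avgSens (fun x => F.eval x) ≤ √F.size) ∧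
    (∀ (N D k b t : ℕ) (V : Type) [Fintype V] (ε η κ : ℝ) (G : (Fin N → Bool) → SimpleGraph V)
      (f : V → Fin D → Fin b → (Fin N → Bool) → Bool)
      (dec : V → Fin D → (Fin b → Bool) → Option V),
      (∀ u j i, NegComp t (f u j i)) → 0 ≤ ε → 0 ≤ η → ε + η < 1 → 1 ≤ k →
      k ≤ Fintype.card V →
      (∀ j ≤ N, SseRight ε η κ k (IsOdd (stair N j)) (G (stair N j))
        (fun u l => dec u l fun i => f u l i (stair N j))) →
      (1 - ε - η) * κ * (k / Fintype.card V) * N ≤ 2 * b * (2 ^ (t + 1) - 1)) := by
  refine ⟨?_, ?_, ?_, ?_, ?_, ?_⟩
  · intro N D k s V _ ε η κ γ a G f dec hf hε hη hεη hκ hγ hk hkV hA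
    exact sse_main hε hη hεη hκ hγ hk hkV G f dec
      (fun u j i => by
        have h1 := hf u j i
        unfold avgSens at h1
        rw [div_le_iff₀ (by positivity)] at h1
        unfold tsens
        rw [mul_comm]
        exact h1) hA
  · intro N f hf
    unfold avgSens
    rw [div_le_iff₀ (by positivity), mul_comm]
    exact unate_tsens hf
  · rintro N k f hN ⟨P, hP, hf⟩
    unfold avgSens
    rw [div_le_iff₀ (by positivity), mul_comm]
    exact ptf_sens hN k f ⟨_, deg_eval P k hP, hf⟩
  · intro N t f hf
    unfold avgSens
    rw [div_le_iff₀ (by positivity), mul_comm]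
    exact neg_tsens hf
  · intro N F
    unfold avgSens
    rw [div_le_iff₀ (by positivity), mul_comm]
    exact form_tsens F
  · intro N D k b t V _ ε η κ G f dec hf hε hη hεη hk hkV hA
    exact sse_stair hε hη hεη hk hkV G f dec hf hA

end Pool.Agent.Results.MP_8d8c46_lc.LowSensitivityReductions
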