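import Pool.Agent.X246.ACR.Fin
import Pool.Agent.X246.ACR.Sse
import Pool.Agent.X245.PFM.AcSens

/-!
# Small-set expansion: constant-depth reductions that are right for half of the inputs

The conjecture asks for polynomial-time reductions. Here a reduction maps an input `x` with `N` bits to
a regular graph, and it is proved that reductions of constant depth from parity to `SSE(η, δ)` need
exponential size, also if they are randomised and right only for a fraction `1 / 2 + γ` of all pairs
of an input and a random choice.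

1. (Arbitrary functions.) On the average over the inputs and over the edges of the graph, an edge
   disappears for at least `(1 - ε - η) δ γ N` of the `N` changes of a single bit of the input.
2. (Adjacency matrices.) If the adjacency matrix is computed by circuits of depth `h`, then some circuit
   has at least `γ 2 ^ (X ^ (1 / (h + 1)) / 100)` gates, where `X = (1 - ε - η) δ γ N`. The case of a
   reduction that is right for all inputs is the starting result `ConstantDepthReductions`.
3. (Lists of neighbours.) Let the graph be given by lists of neighbours, with `D` entries for each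
   vertex, at least the fraction `κ` of which is not empty, and let every one of the `b` bits of an
   entry be computed by a circuit of its own, of depth `h` and with at most `S` gates. Then
   `2 ^ ((X / b) ^ (1 / (h + 1)) / 24) ≤ 2 (h S N + 1)`, where `X = (1 - ε - η) κ γ δ N`. Here the
   number of the vertices and the total size of the reduction do not matter: already the circuits for
   single bits are of exponential size.

The proof of 1 and 2: `SSE(η, δ)` is a gap problem for the set `S` of `δ |V|` vertices, whose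
constraints, the edges, are satisfied by `S` if both ends are in `S`: the values are at least
`(1 - ε) δ` and at most `η δ`. For 3 the average sensitivity of a function computed by a circuit of
depth `h` and size `S` is bounded by `(24 log (2 h S N)) ^ (h + 1)` (switching lemma).

Definitions used in the statement: `cut` (`Pool/Agent/Y601/SSE/Defs.lean`: the number of the edges
leaving a set), `Circuit`, `nodeVal`, `nodeDepth`, `size` (`Pool/Agent/H568R2/Defs.lean`: circuits with
NOT gates and AND and OR gates of unbounded fan-in), `NbLists`, `SseRight`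
(`Pool/Agent/X246/ACR/Sse.lean`).
-/

set_option autoImplicit false

namespace Pool.Agent.Results.MP_8d8c46_lc.PerBitConstantDepth

open Finset DomAC0 Pool.Agent.X246.ACR
open Pool.Agent.Y601.SSE (cut)

open scoped Classical

/-- The number of ones of `x` is odd. -/
def IsOdd {N : ℕ} (x : Fin N → Bool) : Prop := Odd (univ.filter fun i => x i = true).card

/-- `a` is the adjacency matrix of a `d`-regular graph, `d ≥ 1`, in which some set of `k` vertices has
expansion at most `ε` (if not `p`) or all sets of `k` vertices have expansion at least `1 - η`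
(if `p`). -/
def MatrixRight {V : Type} [Fintype V] (ε η : ℝ) (k : ℕ) (p : Prop) (a : V → V → Bool) : Prop :=
  ∃ (G : SimpleGraph V) (d : ℕ), (∀ u v, G.Adj u v ↔ a u v = true) ∧ 1 ≤ d ∧
    (∀ v, (univ.filter fun w => G.Adj v w).card = d) ∧
    (¬ p → ∃ S : Finset V, S.card = k ∧ (cut G S : ℝ) ≤ ε * (d * k)) ∧
    (p → ∀ S : Finset V, S.card = k → (1 - η) * (d * k) ≤ cut G S)

/-- The mean, over the edges of the graph with the adjacency matrix `a x`, of the number of the bits of
`x` whose change deletes the edge. -/
noncomputable def edgeSens {N : ℕ} {V : Type} [Fintype V] (a : (Fin N → Bool) → V → V → Bool)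
    (x : Fin N → Bool) : ℝ :=
  (∑ r : V × V, if a x r.1 r.2 = true then
    ((univ.filter fun i => a (Function.update x i (!x i)) r.1 r.2 = false).card : ℝ) else 0) /
    (univ.filter fun r : V × V => a x r.1 r.2 = true).card

/-- the edges as constraints -/
def elist {V : Type} (a : V → V → Bool) (r : V × V) : Option (V × V) :=
  if a r.1 r.2 = true then some r else none

/-- a set of `k` vertices satisfies the edges in it -/
def esat {V : Type} {k : ℕ} (S : {S : Finset V // S.card = k}) (e : V × V) : Prop :=
  e.1 ∈ S.1 ∧ e.2 ∈ S.1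

section

variable {V : Type} [Fintype V]

theorem elist_ne {a : V → V → Bool} {r : V × V} : elist a r ≠ none ↔ a r.1 r.2 = true := by
  unfold elist
  split_ifs with h <;> simp [h]

theorem total_elist {a : V → V → Bool} {G : SimpleGraph V} {d : ℕ}
    (hG : ∀ u v, G.Adj u v ↔ a u v = true)
    (hd : ∀ v, (univ.filter fun w => G.Adj v w).card = d) :
    total (elist a) = Fintype.card V * d := by
  unfold total
  simp_rw [elist_ne, ← hG]
  rw [card_filter, Fintype.sum_prod_type]
  simp_rw [← card_filter, hd]
  rw [sum_const, card_univ, smul_eq_mul]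

theorem good_elist {a : V → V → Bool} {G : SimpleGraph V} {d k : ℕ}
    (hG : ∀ u v, G.Adj u v ↔ a u v = true)
    (hd : ∀ v, (univ.filter fun w => G.Adj v w).card = d) (S : {S : Finset V // S.card = k}) :
    good esat (elist a) S + cut G S.1 = d * k := by
  have h1 : good esat (elist a) S =
      (univ.filter fun p : V × V => p.1 ∈ S.1 ∧ p.2 ∈ S.1 ∧ G.Adj p.1 p.2).card := by
    unfold good
    congr 1
    ext r
    simp only [mem_filter, mem_univ, true_and]
    constructor
    · rintro ⟨e, he, h1, h2⟩
      unfold elist at he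
      split_ifs at he with h3
      have h4 := Option.some_injective _ he
      rw [← h4] at h1 h2
      exact ⟨h1, h2, (hG _ _).2 h3⟩
    · rintro ⟨h1, h2, h3⟩
      refine ⟨r, ?_, h1, h2⟩
      unfold elist
      rw [if_pos ((hG _ _).1 h3)]
  have h2 : (univ.filter fun p : V × V => p.1 ∈ S.1 ∧ G.Adj p.1 p.2).card = d * k := by
    rw [card_filter, Fintype.sum_prod_type]
    have h3 : ∀ u : V, (∑ v : V, if u ∈ S.1 ∧ G.Adj u v then 1 else 0) =
        if u ∈ S.1 then d else 0 := by
      intro u
      by_cases hu : u ∈ S.1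
      · simp only [hu, true_and, if_true]
        rw [← card_filter]
        exact hd u
      · simp [hu]
    simp_rw [h3]
    rw [← sum_filter, sum_const, smul_eq_mul]
    have h4 : (univ.filter fun u => u ∈ S.1) = S.1 := by
      ext u
      simp
    rw [h4, S.2, mul_comm]
  rw [h1, ← h2]
  unfold cut
  rw [← card_union_of_disjoint]
  · congr 1
    ext r
    simp only [mem_union, mem_filter, mem_univ, true_and]
    tauto
  · rw [disjoint_left]
    intro r hr hr'
    simp only [mem_filter, mem_univ, true_and] at hr hr'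
    exact hr'.2.1 hr.2.1

theorem correct_of_right {N k : ℕ} {ε η : ℝ} (hk : 1 ≤ k) (hkV : k ≤ Fintype.card V)
    (a : (Fin N → Bool) → V → V → Bool) (x : Fin N → Bool)
    (h : MatrixRight ε η k (IsOdd x) (a x)) :
    Correct (esat (V := V) (k := k)) (1 - (1 - ε) * (k / Fintype.card V))
      (η * (k / Fintype.card V)) (fun x => elist (a x)) x := by
  obtain ⟨G, d, hG, hd1, hd, hyes, hno⟩ := h
  have hV : 0 < Fintype.card V := by omega
  have hV0 : (0 : ℝ) < Fintype.card V := by exact_mod_cast hV
  have ht : total (elist (a x)) = Fintype.card V * d := total_elist hG hd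
  have hkd : (k : ℝ) / Fintype.card V * ((Fintype.card V : ℝ) * d) = d * k := by
    field_simp
  refine ⟨?_, ?_, ?_⟩
  · show 1 ≤ total (elist (a x))
    rw [ht]
    exact Nat.mul_pos hV hd1
  · intro hp
    obtain ⟨S, hS, hcut⟩ := hyes hp
    refine ⟨⟨S, hS⟩, ?_⟩
    show (1 - (1 - (1 - ε) * ((k : ℝ) / Fintype.card V))) * (total (elist (a x)) : ℝ) ≤
      good esat (elist (a x)) ⟨S, hS⟩
    have h1 := good_elist (a := a x) hG hd ⟨S, hS⟩
    have h2 : (good esat (elist (a x)) (⟨S, hS⟩ : {S : Finset V // S.card = k}) : ℝ) +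
        cut G S = d * k := by exact_mod_cast h1
    rw [ht]
    push_cast
    have h3 : (1 - (1 - (1 - ε) * ((k : ℝ) / Fintype.card V))) * ((Fintype.card V : ℝ) * d) =
        (1 - ε) * (d * k) := by
      rw [← hkd]
      ring
    rw [h3]
    linarith
  · intro hp S
    have h1 := good_elist (a := a x) hG hd S
    have h2 : (good esat (elist (a x)) S : ℝ) + cut G S.1 = d * k := by exact_mod_cast h1
    have h3 := hno hp S.1 S.2
    show (good esat (elist (a x)) S : ℝ) ≤ η * ((k : ℝ) / Fintype.card V) * total (elist (a x))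
    rw [ht]
    push_cast
    rw [mul_assoc, hkd]
    linarith

theorem edgeSens_eq {N : ℕ} (a : (Fin N → Bool) → V → V → Bool) (x : Fin N → Bool) :
    meanSens (fun x => elist (a x)) x = edgeSens a x := by
  unfold meanSens edgeSens
  congr 1
  · refine sum_congr rfl fun r _ => ?_
    by_cases h : a x r.1 r.2 = true
    · rw [if_pos (elist_ne.2 h), if_pos h]
      congr 2
      ext i
      simp only [mem_filter, mem_univ, true_and]
      have h1 : elist (a x) r = some r := by
        unfold elist
        rw [if_pos h]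
      rw [h1]
      unfold elist
      show (if a (Function.update x i (!x i)) r.1 r.2 = true then some r else none) ≠ some r ↔ _
      by_cases h2 : a (Function.update x i (!x i)) r.1 r.2 = true
      · rw [if_pos h2, h2]
        simp
      · rw [if_neg h2]
        simp only [ne_eq, reduceCtorEq, not_false_eq_true, true_iff]
        exact Bool.not_eq_true _ ▸ h2
    · rw [if_neg h, if_neg fun h1 => h (elist_ne.1 h1)]
  · congr 2
    ext r
    simp only [mem_filter, mem_univ, true_and]
    exact elist_ne

end

/-- Let `1 ≤ k ≤ |V|`, `ε, η ≥ 0`, `ε + η < 1`.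

(1) If the adjacency matrix `a x` is right for at least a fraction `1 / 2 + γ` of the inputs `x` (some
set of `k` vertices has expansion at most `ε` if `x` is even, all have expansion at least `1 - η` if
`x` is odd) then the mean number of bits whose change deletes an edge is at least
`(1 - ε - η) (k / |V|) γ N`.

(2) For every depth `h` there is `X₀` such that if circuits `C ω` of depth at most `h` compute matrices
which are right for at least a fraction `1 / 2 + γ` of all pairs `(ω, x)`, and if
`X = (1 - ε - η) (k / |V|) γ N ≥ X₀`, then some `C ω` has at least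
`γ 2 ^ (X ^ (1 / (h + 1)) / 100)` gates.

(3) If every entry of the lists of neighbours is a function of `b` bits, each of them computed by a
circuit of depth at most `h` with at most `S` gates, and if these lists are right for at least a
fraction `1 / 2 + γ` of all pairs `(ω, x)`, then `2 ^ ((X / b) ^ (1 / (h + 1)) / 24) ≤ 2 (h S N + 1)`
for `X = (1 - ε - η) κ γ (k / |V|) N`. -/
theorem result :
    (∀ (N k : ℕ) (V : Type) [Fintype V] (ε η γ : ℝ) (a : (Fin N → Bool) → V → V → Bool),
      1 ≤ k → k ≤ Fintype.card V → 0 ≤ ε → 0 ≤ η → ε + η < 1 →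
      (1 / 2 + γ) * 2 ^ N ≤
        ((univ.filter fun x => MatrixRight ε η k (IsOdd x) (a x)).card : ℝ) →
      (1 - ε - η) * (k / Fintype.card V) * γ * N ≤ (∑ x, edgeSens a x) / 2 ^ N) ∧
    (∀ h : ℕ, ∃ X₀ : ℝ, ∀ (N k : ℕ) (Ω V : Type) [Fintype Ω] [Nonempty Ω] [Fintype V]
      (ε η γ : ℝ) (C : Ω → Circuit (Fin N)) (out : ∀ ω, V → V → Fin N ⊕ Fin (C ω).size),
      (∀ ω u v, (C ω).nodeDepth (out ω u v) ≤ h) →
      1 ≤ k → k ≤ Fintype.card V → 0 ≤ ε → 0 ≤ η → ε + η < 1 → 0 < γ →
      (1 / 2 + γ) * (2 ^ N * Fintype.card Ω) ≤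
        ((univ.filter fun p : Ω × (Fin N → Bool) =>
          MatrixRight ε η k (IsOdd p.2) fun u v => (C p.1).nodeVal p.2 (out p.1 u v)).card : ℝ) →
      X₀ ≤ (1 - ε - η) * (k / Fintype.card V) * γ * N →
      ∃ ω, γ * (2 : ℝ) ^ (((1 - ε - η) * (k / Fintype.card V) * γ * N) ^ (1 / (h + 1 : ℝ)) / 100) ≤
        (C ω).size) ∧
    (∀ (N D k b h S : ℕ) (Ω V : Type) [Fintype Ω] [Nonempty Ω] [Fintype V] (ε η κ γ : ℝ)
      (G : Ω → (Fin N → Bool) → SimpleGraph V)
      (C : Ω → V → Fin D → Fin b → Circuit (Fin N))
      (out : ∀ ω u j i, Fin N ⊕ Fin (C ω u j i).size)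
      (dec : Ω → V → Fin D → (Fin b → Bool) → Option V),
      1 ≤ b → (∀ ω u j i, (C ω u j i).nodeDepth (out ω u j i) ≤ h) →
      (∀ ω u j i, (C ω u j i).size ≤ S) →
      1 ≤ k → k ≤ Fintype.card V → 0 ≤ ε → 0 ≤ η → ε + η < 1 → 0 ≤ κ → 0 < γ →
      (1 / 2 + γ) * (2 ^ N * Fintype.card Ω) ≤
        ((univ.filter fun p : Ω × (Fin N → Bool) =>
          SseRight ε η κ k (IsOdd p.2) (G p.1 p.2) fun u j => dec p.1 u j fun i =>
            (C p.1 u j i).nodeVal p.2 (out p.1 u j i)).card : ℝ) →
      (2 : ℝ) ^ (((1 - ε - η) * κ * γ * (k / Fintype.card V) * N / b) ^ (1 / (h + 1 : ℝ)) / 24) ≤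
        2 * (h * S * N + 1)) := by
  have hmono : ∀ {N k : ℕ} {V : Type} [Fintype V] {ε η γ : ℝ}
      (a : (Fin N → Bool) → V → V → Bool), 1 ≤ k → k ≤ Fintype.card V →
      (1 / 2 + γ) * 2 ^ N ≤
        ((univ.filter fun x => MatrixRight ε η k (IsOdd x) (a x)).card : ℝ) →
      (1 / 2 + γ) * 2 ^ N ≤
        ((univ.filter fun x => Correct (esat (V := V) (k := k))
          (1 - (1 - ε) * (k / Fintype.card V)) (η * (k / Fintype.card V))
          (fun x => elist (a x)) x).card : ℝ) := by
    intro N k V _ ε η γ a hk hkV hA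
    refine hA.trans ?_
    have h1 : (univ.filter fun x => MatrixRight ε η k (IsOdd x) (a x)).card ≤
        (univ.filter fun x => Correct (esat (V := V) (k := k))
          (1 - (1 - ε) * (k / Fintype.card V)) (η * (k / Fintype.card V))
          (fun x => elist (a x)) x).card := by
      refine card_le_card fun x hx => ?_
      rw [mem_filter] at hx ⊢
      exact ⟨hx.1, correct_of_right hk hkV a x hx.2⟩
    exact_mod_cast h1
  have hpar : ∀ {k n : ℕ} {ε η : ℝ}, 1 ≤ k → k ≤ n → 0 ≤ ε → 0 ≤ η → ε + η < 1 →
      0 ≤ 1 - (1 - ε) * ((k : ℝ) / n) ∧ 0 ≤ η * ((k : ℝ) / n) ∧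
      1 - (1 - ε) * ((k : ℝ) / n) + η * ((k : ℝ) / n) < 1 := by
    intro k n ε η hk hkn hε hη hεη
    have hn : (0 : ℝ) < n := by exact_mod_cast (by omega : 0 < n)
    have hk0 : (0 : ℝ) < k := by exact_mod_cast hk
    have h1 : (k : ℝ) / n ≤ 1 := by
      rw [div_le_one hn]
      exact_mod_cast hkn
    have h2 : (0 : ℝ) < (k : ℝ) / n := by positivity
    refine ⟨?_, by positivity, ?_⟩
    · nlinarith
    · nlinarith
  refine ⟨?_, fun h => ?_, ?_⟩
  · intro N k V _ ε η γ a hk hkV hε hη hεη hA
    obtain ⟨p1, p2, p3⟩ := hpar (ε := ε) (η := η) hk hkV hε hη hεη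
    have h1 := sens_main p1 p2 p3 (fun x => elist (a x)) (hmono a hk hkV hA)
    simp_rw [edgeSens_eq] at h1
    refine le_trans (le_of_eq ?_) h1
    ring
  · obtain ⟨X₀, H⟩ := ac0_main h
    refine ⟨X₀, ?_⟩
    intro N k Ω V _ _ _ ε η γ C out hh hk hkV hε hη hεη hγ hA hX
    obtain ⟨ω, hω⟩ := exists_index (fun ω x => MatrixRight ε η k (IsOdd x)
      fun u v => (C ω).nodeVal x (out ω u v)) γ hA
    obtain ⟨p1, p2, p3⟩ := hpar (ε := ε) (η := η) hk hkV hε hη hεη
    have h1 := hmono (fun x u v => (C ω).nodeVal x (out ω u v)) hk hkV hω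
    have h2 : ∀ x : Fin N → Bool, elist (fun u v => (C ω).nodeVal x (out ω u v)) =
        inst (C ω) (fun (r : V × V) (_ : Fin 1) => out ω r.1 r.2)
          (fun r z => if z 0 = true then some r else none) x := by
      intro x
      funext r
      rfl
    have h3 := H (esat (V := V) (k := k)) (C ω) (fun (r : V × V) (_ : Fin 1) => out ω r.1 r.2)
      (fun r z => if z 0 = true then some r else none) (1 - (1 - ε) * ((k : ℝ) / Fintype.card V))
      (η * ((k : ℝ) / Fintype.card V)) γ le_rfl (fun r _ => hh ω r.1 r.2) p1 p2 p3 hγ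
      (by
        refine h1.trans (le_of_eq ?_)
        congr 2)
    have h4 : (1 - (1 - (1 - ε) * ((k : ℝ) / Fintype.card V)) -
        η * ((k : ℝ) / Fintype.card V)) * γ * N / (1 : ℕ) =
        (1 - ε - η) * (k / Fintype.card V) * γ * N := by
      push_cast
      ring
    rw [h4] at h3
    exact ⟨ω, h3 hX⟩
  · intro N D k b h S Ω V _ _ _ ε η κ γ G C out dec hb hh hS hk hkV hε hη hεη hκ hγ hA
    obtain ⟨ω, hω⟩ := exists_index (fun ω x => SseRight ε η κ k (IsOdd x) (G ω x)
      fun u j => dec ω u j fun i => (C ω u j i).nodeVal x (out ω u j i)) γ hA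
    have hX0 : 0 ≤ (1 - ε - η) * κ * γ * ((k : ℝ) / Fintype.card V) * N := by
      have : 0 ≤ 1 - ε - η := by linarith
      positivity
    refine Pool.Agent.X245.PFM.size_bound N h b S hb _ hX0 fun s hs hcond => ?_
    refine sse_main hε hη hεη hκ hγ hk hkV (G ω)
      (fun u j i x => (C ω u j i).nodeVal x (out ω u j i)) (dec ω) (fun u j i => ?_) hω
    refine Pool.Agent.X245.PFM.ac0_tsens (C ω u j i) (out ω u j i) h (hh ω u j i) hs ?_
    refine le_trans ?_ hcond
    have h1 : ((C ω u j i).size : ℝ) ≤ S := by exact_mod_cast hS ω u j i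
    have h2 : (0 : ℝ) ≤ h := Nat.cast_nonneg _
    have h3 : (0 : ℝ) ≤ N := Nat.cast_nonneg _
    exact mul_le_mul_of_nonneg_right (mul_le_mul_of_nonneg_left h1 h2) h3

end Pool.Agent.Results.MP_8d8c46_lc.PerBitConstantDepth
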