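import Pool.Agent.X240.SH.GapSse

/-!
# Reductions to small-set expansion are slow

The conjecture asks for polynomial-time reductions from all problems in `NP` to `SSE(η, δ)`. Here the
source is the set of the directed graphs with `V` vertices, given by their adjacency matrices as words
of `n = V ^ 2` bits, which have an odd number of cycles of length two (`twoCycles`), and a reduction is
computed by a nonuniform transducer (`Transducer`) with `k` two-way heads, which move by at most one
position in a step, and at most `2 ^ S` configurations; in every step it may write any number of edges.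
The output is the list of the edges of a regular graph, whose vertices are in any set `A` and whose
size and degree may depend on the input (loops and multiple edges are allowed, so for example each edge
may be written twice, as in the lists of neighbours).  The reduction may be randomized: for every
input the output of the first `T` steps is right with probability at least `2 / 3`.

If the reduction is to `SSE(η, δ)`, `η < 1 / 2`, or to the problem with expansion at most `ε` or at
least `1 - η`, `ε + η < 1`, then
`(δ (1 - ε - η)) ^ 2 V ^ 6 ≤ 1.62 * 10 ^ 10 k (S + 1) (k T + V ^ 2) ^ 2`. So for constant `δ`, `ε`,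
`η`, `k` we have `T ≥ c V ^ 3 / sqrt (S + 1)`, which is `n ^ (3 / 2 - o(1))` for `S = n ^ o(1)`.

Proof. The upper right and the lower left quarter of the matrix are filled with bits `x i c`, row by
row, and `y i c`, column by column, so that the answer is their inner product modulo two. Divide the
input into zones and the time into windows. For most zones `b` of the second part the transcript of
`b` (the configurations at the beginning and at the end of the windows in which `b` is visited) is
short, and only a small fraction of the edges is written in these windows. The inputs with the same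
transcript of `b` form, for the bits of `b` and of the zones which are not visited in these windows, a
rectangle, and the edges which are written outside of the windows are functions of the first matrix
only. Two regular graphs which differ in few edges have almost the same degrees and vertices, and a set
of small expansion in the first one becomes, after a small change of its size, a set of small expansion
in the second one. So the answer is for most inputs a function of the first matrix only, which
contradicts the lemma of Lindsey (`Pool.Agent.X240.SH.GapE`, `GapE2`, `GapM`, `GapSse`).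
-/

set_option autoImplicit false

namespace Pool.Agent.Results.MP_8d8c46_lc.SlowHeadReductions

open Finset Pool.Agent.X240.SH

/-- Let `p`, `R` be a random transducer with `k ≥ 1` two-way heads for words of `V ^ 2` bits and
with at most `2 ^ S` configurations. If for all directed graphs `a` with `V ≥ 2` vertices the output of
the first `T` steps is with probability at least `2 / 3` the list of the edges of a regular graph with
the following property, then
`(δ * (1 - ε - η)) ^ 2 * V ^ 6 ≤ 16200000000 * k * (S + 1) * (k * T + V ^ 2) ^ 2`: if `a` has an odd
number of cycles of length two then some set of a fraction `δ` of all vertices has expansion at most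
`ε`, otherwise all these sets have expansion at least `1 - η`; here `ε + η < 1` and `0 < δ ≤ 1`. -/
theorem result (V k T S : ℕ) (A Ω : Type) [Fintype Ω] (δ ε η : ℝ) (p : Ω → ℝ)
    (R : Ω → Transducer Bool (A × A) (V * V) k)
    (hp : ∀ ω, 0 ≤ p ω) (hp1 : ∑ ω, p ω = 1) (hV : 2 ≤ V) (hk : 1 ≤ k)
    (hδ : 0 < δ) (hδ1 : δ ≤ 1) (hε : 0 ≤ ε) (hη : 0 ≤ η) (hεη : ε + η < 1)
    (hS : ∀ ω, Fintype.card (R ω).Q * (V * V) ^ k ≤ 2 ^ S)
    (hyes : ∀ a : Fin V → Fin V → Bool, twoCycles a % 2 = 1 →
      2 / 3 ≤ probOut p R T (gword V a) (SseYes δ ε))
    (hno : ∀ a : Fin V → Fin V → Bool, twoCycles a % 2 = 0 →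
      2 / 3 ≤ probOut p R T (gword V a) (SseNo δ η)) :
    (δ * (1 - ε - η)) ^ 2 * V ^ 6 ≤ 16200000000 * (k * (S + 1) * (k * T + V ^ 2) ^ 2) := by
  obtain ⟨g, hg⟩ : ∃ g, g = δ * (1 - ε - η) := ⟨_, rfl⟩
  have hg0 : 0 < g := by
    rw [hg]
    exact mul_pos hδ (by linarith)
  have hg1 : g ≤ 1 := by
    rw [hg]
    exact mul_le_one₀ hδ1 (by linarith) (by linarith)
  obtain ⟨m, hm⟩ : ∃ m, m = ⌊8 / g⌋₊ + 1 := ⟨_, rfl⟩
  have hm1 : 1 ≤ m := by rw [hm]; exact Nat.le_add_left 1 _
  have hmg : 8 < m * g := by
    have h1 := Nat.lt_floor_add_one (8 / g)
    rw [div_lt_iff₀ hg0] at h1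
    rw [hm]
    push_cast
    exact h1
  have hmu : m * g ≤ 9 := by
    have h1 := Nat.floor_le (show 0 ≤ 8 / g by positivity)
    rw [hm]
    push_cast
    have h2 : (⌊8 / g⌋₊ : ℝ) * g ≤ 8 := by
      rw [le_div_iff₀ hg0] at h1
      exact h1
    linarith
  have hb := GapM.gap_bound V k T S m p hp hp1 R hV hk hm1 (SseYes δ ε) (SseNo δ η)
    (fun y t => ((y t).length : ℝ)) (fun y t => Nat.cast_nonneg _) (by
      intro y z J hJ h1 h2 h3 h4
      exact GapSse.gap_sse δ ε η m hδ hδ1 hε hη (by rw [← hg]; exact hmg) y z J hJ h1 h2 h3 h4)
    hyes hno hS
  rw [← hg]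
  have hb' : ((V ^ 6 : ℕ) : ℝ) ≤
      ((200000000 * (m ^ 2 * k * (S + 1) * (k * T + V ^ 2) ^ 2) : ℕ) : ℝ) := by
    exact_mod_cast hb
  push_cast at hb'
  calc g ^ 2 * (V : ℝ) ^ 6 ≤ g ^ 2 * (200000000 * ((m : ℝ) ^ 2 * k * (S + 1) *
        (k * T + V ^ 2) ^ 2)) := mul_le_mul_of_nonneg_left hb' (by positivity)
    _ = 200000000 * (m * g) ^ 2 * (k * (S + 1) * (k * T + V ^ 2) ^ 2) := by ring
    _ ≤ 200000000 * 9 ^ 2 * (k * (S + 1) * (k * T + V ^ 2) ^ 2) := by
        apply mul_le_mul_of_nonneg_right _ (by positivity)
        apply mul_le_mul_of_nonneg_left _ (by norm_num)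
        exact pow_le_pow_left₀ (by positivity) hmu 2
    _ = 16200000000 * (k * (S + 1) * (k * T + V ^ 2) ^ 2) := by norm_num

end Pool.Agent.Results.MP_8d8c46_lc.SlowHeadReductions
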